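import Mathlib
import Pool.Agent.H90.HhE

namespace Pool.Agent.Results.MP_067393_an.Exists

open Pool.Agent.H90.Hh

theorem result : ∃ (A : Type) (_ : NonUnitalNormedRing A) (_ : NormedSpace ℂ A)
    (_ : IsScalarTower ℂ A A) (_ : SMulCommClass ℂ A A) (_ : CompleteSpace A),
    Exist A ∧ Vanish A ∧ ¬ HausZero A ∧ ¬ Amenable A :=
  ⟨AA, inferInstance, inferInstance, inferInstance, inferInstance, inferInstance, exist,
    vanish good, not_haus, not_amen⟩

end Pool.Agent.Results.MP_067393_an.Exists
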